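import Pool.Agent.V11242.TT.Ground
import Pool.Agent.V11242.SP.Poset
import Pool.Agent.Helper669.Forcing

/-!
# Forcing with the quotient of a σ-ideal, and Tukey-top generic ultrafilters
-/

set_option autoImplicit false

namespace Pool.Agent.V11242.TT

open Set Pool.Agent.Helper669.Forcing

section general

variable {X : Type}

/-- `I` is an ideal on `X` which contains all finite sets. -/
structure IsIdealOn (I : Set (Set X)) : Prop where
  univ_notMem : Set.univ ∉ I
  finite_mem : ∀ A : Set X, A.Finite → A ∈ I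
  subset_mem : ∀ A B : Set X, A ⊆ B → B ∈ I → A ∈ I
  union_mem : ∀ A B : Set X, A ∈ I → B ∈ I → A ∪ B ∈ I

/-- `I` is a σ-ideal in the sense of the problem. -/
def IsSigmaIdeal (I : Set (Set X)) : Prop :=
  ∀ A : ℕ → Set X, (∀ n, A (n + 1) ⊆ A n) → (∀ n, A n ∉ I) → ∃ B, B ∉ I ∧ ∀ n, B \ A n ∈ I

/-- Every positive set can be split into two positive sets. -/
def IsAtomless (I : Set (Set X)) : Prop :=
  ∀ A, A ∉ I → ∃ B, B ⊆ A ∧ B ∉ I ∧ A \ B ∉ I

/-- The conditions of `P(X)/I`: the positive sets. -/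
structure Quo (I : Set (Set X)) (hI : IsIdealOn I) where
  set : Set X
  pos : set ∉ I

variable {I : Set (Set X)} {hI : IsIdealOn I}

instance : Preorder (Quo I hI) where
  le p q := p.1 \ q.1 ∈ I
  le_refl p := by
    rw [sdiff_self]
    exact hI.finite_mem _ finite_empty
  le_trans p q r h1 h2 := by
    refine hI.subset_mem _ _ ?_ (hI.union_mem _ _ h1 h2)
    intro x hx
    by_cases hq : x ∈ q.1
    · exact Or.inr ⟨hq, hx.2⟩
    · exact Or.inl ⟨hx.1, hq⟩

theorem Quo.le_def {p q : Quo I hI} : p ≤ q ↔ p.1 \ q.1 ∈ I := Iff.rfl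

/-- The name of the generic ultrafilter: `A` belongs to it if the generic filter contains the
condition `A`. -/
def gen (I : Set (Set X)) (hI : IsIdealOn I) (A : Set X) : Set (Quo I hI) := {q | q.1 = A}

theorem mem_gen {p : Quo I hI} {A : Set X} : p ∈ meets (gen I hI A) ↔ p.1 \ A ∈ I := by
  constructor
  · intro h
    by_contra hcon
    have hle : (⟨p.1 \ A, hcon⟩ : Quo I hI) ≤ p := by
      rw [Quo.le_def]
      refine hI.subset_mem _ ∅ ?_ (hI.finite_mem _ finite_empty)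
      rintro x ⟨hx, hx'⟩
      exact hx' hx.1
    obtain ⟨r, hr, s, hs, hrs⟩ := h _ hle
    have hs : s.1 = A := hs
    apply r.2
    rw [Quo.le_def] at hr hrs
    rw [hs] at hrs
    refine hI.subset_mem _ _ ?_ (hI.union_mem _ _ hr hrs)
    intro x hx
    by_cases hA : x ∈ A
    · exact Or.inl ⟨hx, fun h => h.2 hA⟩
    · exact Or.inr ⟨hx, hA⟩
  · intro h
    have hA : A ∉ I := by
      intro hA
      apply p.2
      refine hI.subset_mem _ _ ?_ (hI.union_mem _ _ h hA)
      intro x hx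
      by_cases hxA : x ∈ A
      · exact Or.inr hxA
      · exact Or.inl ⟨hx, hxA⟩
    exact meets_of_le (s := (⟨A, hA⟩ : Quo I hI)) rfl h

variable {P : Type} [Preorder P] {Y : Type}

/-- `φ` if and only if `ψ`. -/
def fiff (φ ψ : Set P) : Set P := fand (fimp φ ψ) (fimp ψ φ)

variable (P) in
/-- No new subsets of `ℕ` are added. -/
def NoNewSubsets : Set P :=
  fall fun x : ℕ → Set P => fex fun A : Set ℕ => fall fun n =>
    fiff (meets (x n)) (fground (n ∈ A))

/-- The set of ground model subsets of `Y` named by `𝒲` is an ultrafilter (of the ground model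
subsets) on `Y`. -/
def IsUltraHolds (𝒲 : Set Y → Set P) : Set P :=
  fand (fnot (meets (𝒲 ∅)))
    (fand (fall fun A : Set Y => fall fun B : Set Y => fimp (fand (fground (A ⊆ B)) (meets (𝒲 A)))
        (meets (𝒲 B)))
      (fand (fall fun A : Set Y => fall fun B : Set Y =>
          fimp (fand (meets (𝒲 A)) (meets (𝒲 B))) (meets (𝒲 (A ∩ B))))
        (fall fun A : Set Y => fimp (fnot (meets (𝒲 A))) (meets (𝒲 Aᶜ)))))

/-- The named relation `f` restricts to a function from the ultrafilter `𝒢` to the ultrafilter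
`𝒲`. -/
def MapsHolds (𝒢 : Set X → Set P) (𝒲 : Set Y → Set P) (f : Set X → Set Y → Set P) : Set P :=
  fand (fall fun A : Set X => fimp (meets (𝒢 A))
      (fex fun B : Set Y => fand (meets (f A B)) (meets (𝒲 B))))
    (fall fun A : Set X => fall fun B : Set Y => fall fun B' : Set Y =>
      fimp (fand (meets (𝒢 A)) (fand (meets (f A B)) (meets (f A B')))) (fground (B = B')))

/-- The family named by `𝒞` is a cofinal subset of `(𝒢, ⊇)`. -/
def CofinalHolds (𝒢 𝒞 : Set X → Set P) : Set P :=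
  fand (fall fun A : Set X => fimp (meets (𝒞 A)) (meets (𝒢 A)))
    (fall fun A : Set X => fimp (meets (𝒢 A))
      (fex fun A' : Set X => fand (fground (A' ⊆ A)) (meets (𝒞 A'))))

/-- The image of `𝒞` under `f` is cofinal in `(𝒲, ⊇)`. -/
def ImageHolds (𝒲 : Set Y → Set P) (f : Set X → Set Y → Set P) (𝒞 : Set X → Set P) : Set P :=
  fall fun B : Set Y => fimp (meets (𝒲 B))
    (fex fun A' : Set X => fex fun B' : Set Y =>
      fand (meets (𝒞 A')) (fand (meets (f A' B')) (fground (B' ⊆ B))))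

/-- The ultrafilter `𝒢` is Tukey-top: for every ultrafilter `𝒲` on `ℕ` some map from `𝒢` to `𝒲`
sends cofinal subsets to cofinal subsets. -/
def TukeyTopHolds (𝒢 : Set X → Set P) : Set P :=
  fall fun 𝒲 : Set ℕ → Set P => fimp (IsUltraHolds 𝒲)
    (fex fun f : Set X → Set ℕ → Set P => fand (MapsHolds 𝒢 𝒲 f)
      (fall fun 𝒞 : Set X → Set P => fimp (CofinalHolds 𝒢 𝒞) (ImageHolds 𝒲 f 𝒞)))

theorem down_IsUltraHolds (𝒲 : Set Y → Set P) : Down (IsUltraHolds 𝒲) :=
  down_fand (down_fnot _) (down_fand (down_fall fun _ => down_fall fun _ => down_fimp _ _)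
    (down_fand (down_fall fun _ => down_fall fun _ => down_fimp _ _)
      (down_fall fun _ => down_fimp _ _)))

/-- The generic filter is an ultrafilter. -/
theorem gen_ultra (p : Quo I hI) : p ∈ IsUltraHolds (gen I hI) := by
  refine ⟨fun q _ hq => ?_, fun A B => ?_, fun A B => ?_, fun A => ?_⟩
  · rw [mem_gen, sdiff_empty] at hq
    exact q.2 hq
  · refine mem_fimp.2 fun q _ h => ⟨q, le_rfl, ?_⟩
    have h1 := mem_gen.1 h.2
    exact mem_gen.2 (hI.subset_mem _ _ (sdiff_subset_sdiff_right h.1) h1)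
  · refine mem_fimp.2 fun q _ h => ⟨q, le_rfl, ?_⟩
    have h1 := mem_gen.1 h.1
    have h2 := mem_gen.1 h.2
    refine mem_gen.2 ?_
    rw [sdiff_inter]
    exact hI.union_mem _ _ h1 h2
  · refine mem_fimp.2 fun q _ h => ⟨q, le_rfl, ?_⟩
    refine mem_gen.2 ?_
    by_contra hcon
    have hle : (⟨q.1 \ Aᶜ, hcon⟩ : Quo I hI) ≤ q := by
      rw [Quo.le_def]
      refine hI.subset_mem _ ∅ ?_ (hI.finite_mem _ finite_empty)
      rintro x ⟨hx, hx'⟩
      exact hx' hx.1
    refine h _ hle (mem_gen.2 ?_)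
    refine hI.subset_mem _ ∅ ?_ (hI.finite_mem _ finite_empty)
    rintro x ⟨⟨_, hx⟩, hx'⟩
    exact hx (fun h => hx' h)

theorem quo_closed (hσ : IsSigmaIdeal I) (p : ℕ → Quo I hI) (hp : ∀ n, p (n + 1) ≤ p n) :
    ∃ q, ∀ n, q ≤ p n := by
  have hle : ∀ m n, m ≤ n → p n ≤ p m := by
    intro m n h
    induction h with
    | refl => exact le_rfl
    | step _ ih => exact (hp _).trans ih
  have hpos : ∀ n, (⋂ j ∈ Finset.range (n + 1), (p j).1) ∉ I := by
    intro n hn
    have h1 : ∀ m, m ≤ n + 1 → (p n).1 \ (⋂ j ∈ Finset.range m, (p j).1) ∈ I := by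
      intro m
      induction m with
      | zero =>
        intro _
        refine hI.subset_mem _ ∅ ?_ (hI.finite_mem _ finite_empty)
        intro x hx
        simp at hx
      | succ m ih =>
        intro hm
        refine hI.subset_mem _ _ ?_ (hI.union_mem _ _ (ih (by omega)) (hle m n (by omega)))
        rintro x ⟨hx, hx'⟩
        by_cases hxm : x ∈ (p m).1
        · left
          refine ⟨hx, fun h => hx' ?_⟩
          simp only [Finset.mem_range, mem_iInter] at h ⊢
          intro j hj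
          rcases Nat.lt_succ_iff_lt_or_eq.mp hj with h' | rfl
          · exact h j h'
          · exact hxm
        · exact Or.inr ⟨hx, hxm⟩
    have h2 := h1 (n + 1) le_rfl
    apply (p n).2
    refine hI.subset_mem _ _ ?_ (hI.union_mem _ _ h2 hn)
    intro x hx
    by_cases h : x ∈ ⋂ j ∈ Finset.range (n + 1), (p j).1
    · exact Or.inr h
    · exact Or.inl ⟨hx, h⟩
  obtain ⟨B, hB, hB'⟩ := hσ (fun n => ⋂ j ∈ Finset.range (n + 1), (p j).1) (by
    intro n x hx
    simp only [Finset.mem_range, mem_iInter] at hx ⊢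
    exact fun j hj => hx j (by omega)) hpos
  refine ⟨⟨B, hB⟩, fun n => ?_⟩
  rw [Quo.le_def]
  refine hI.subset_mem _ _ ?_ (hB' n)
  rintro x ⟨hx, hx'⟩
  refine ⟨hx, fun h => hx' ?_⟩
  simp only [Finset.mem_range, mem_iInter] at h
  exact h n (by omega)

theorem decide_seq (hclosed : ∀ p : ℕ → P, (∀ n, p (n + 1) ≤ p n) → ∃ q, ∀ n, q ≤ p n)
    (φ : ℕ → Set P) (hφ : ∀ n, Down (φ n)) (p : P) :
    ∃ q ≤ p, ∀ n, q ∈ φ n ∨ q ∈ fnot (φ n) := by
  obtain ⟨f, hf0, hf⟩ := Pool.Agent.V11242.SP.exists_seq (A := P) (fun a b => b ≤ a)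
    (fun n _ b => b ∈ φ n ∨ b ∈ fnot (φ n)) (by
      intro n a
      by_cases h : ∃ b ≤ a, b ∈ φ n
      · obtain ⟨b, hb, hb'⟩ := h
        exact ⟨b, hb, Or.inl hb'⟩
      · push Not at h
        exact ⟨a, le_rfl, Or.inr fun b hb => h b hb⟩) p
  obtain ⟨q, hq⟩ := hclosed f fun n => (hf n).1
  refine ⟨q, hf0 ▸ hq 0, fun n => ?_⟩
  rcases (hf n).2 with h | h
  · exact Or.inl (hφ n _ h _ (hq (n + 1)))
  · exact Or.inr (down_fnot _ _ h _ (hq (n + 1)))

theorem noNewSubsets_of (hclosed : ∀ p : ℕ → P, (∀ n, p (n + 1) ≤ p n) → ∃ q, ∀ n, q ≤ p n)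
    (p : P) : p ∈ NoNewSubsets P := by
  intro x
  refine mem_fex.2 fun q _ => ?_
  obtain ⟨t, ht, h⟩ := decide_seq hclosed (fun n => meets (x n)) (fun n => down_meets _) q
  refine ⟨t, ht, {n | t ∈ meets (x n)}, fun n => ⟨?_, ?_⟩⟩
  · refine mem_fimp.2 fun s hs hsx => ⟨s, le_rfl, ?_⟩
    rcases h n with h | h
    · exact h
    · exact absurd hsx (h s hs)
  · refine mem_fimp.2 fun s hs hsx => ⟨s, le_rfl, ?_⟩
    exact down_meets _ _ hsx _ hs

end general

section special

variable (W : Ultrafilter SS)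

/-- The vertical section. -/
def sec (A : Set (SS × ℕ)) (n : SS) : Set ℕ := {m | (n, m) ∈ A}

/-- The Fubini product of the dual ideal of `W` and the ideal of finite sets. -/
def IW : Set (Set (SS × ℕ)) := {A | {n | (sec A n).Finite} ∈ W}

theorem isIdealOn_IW : IsIdealOn (IW W) where
  univ_notMem := by
    intro h
    have h1 : {n | (sec (Set.univ : Set (SS × ℕ)) n).Finite} = ∅ := by
      rw [Set.eq_empty_iff_forall_notMem]
      intro n hn
      have h2 : sec (Set.univ : Set (SS × ℕ)) n = Set.univ := by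
        ext m; simp [sec]
      have h3 : (sec (Set.univ : Set (SS × ℕ)) n).Finite := hn
      rw [h2] at h3
      exact Set.infinite_univ h3
    have h2 : {n | (sec (Set.univ : Set (SS × ℕ)) n).Finite} ∈ W := h
    rw [h1] at h2
    exact W.empty_notMem h2
  finite_mem A hA := by
    refine Filter.mem_of_superset Filter.univ_mem fun n _ => ?_
    exact hA.preimage (f := fun m : ℕ => (n, m)) (fun a _ b _ h => by simpa using h)
  subset_mem A B h hB := by
    refine Filter.mem_of_superset hB fun n hn => ?_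
    exact Set.Finite.subset hn fun m hm => h hm
  union_mem A B hA hB := by
    refine Filter.mem_of_superset (Filter.inter_mem hA hB) fun n hn => ?_
    exact (Set.Finite.union hn.1 hn.2).subset fun m hm => hm

theorem notMem_IW {A : Set (SS × ℕ)} : A ∉ IW W ↔ {n | (sec A n).Infinite} ∈ W := by
  unfold IW
  rw [mem_ofPred_eq, ← Ultrafilter.compl_mem_iff_notMem]
  rfl

theorem isSigmaIdeal_IW (hW : ∀ b : Set SS, bᶜ.Finite → b ∈ W) : IsSigmaIdeal (IW W) := by
  classical
  intro A hA hpos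
  have hanti : ∀ m n, m ≤ n → A n ⊆ A m := by
    intro m n h
    induction h with
    | refl => exact subset_rfl
    | step _ ih => exact (hA _).trans ih
  let B : Set (SS × ℕ) := {x | x ∈ A 0 ∧ ∀ k ≤ Encodable.encode x.1,
    (sec (A k) x.1).Infinite → x ∈ A k}
  refine ⟨B, (notMem_IW W).mpr ?_, fun k => ?_⟩
  · refine Filter.mem_of_superset ((notMem_IW W).mp (hpos 0)) fun n hn => ?_
    have hn : (sec (A 0) n).Infinite := hn
    obtain ⟨K, hK, hmax⟩ : ∃ K, (K ≤ Encodable.encode n ∧ (sec (A K) n).Infinite) ∧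
        ∀ k, k ≤ Encodable.encode n ∧ (sec (A k) n).Infinite → k ≤ K := by
      have h1 : ({k | k ≤ Encodable.encode n ∧ (sec (A k) n).Infinite} : Set ℕ).Finite :=
        (Set.finite_Iic (Encodable.encode n)).subset fun k hk => hk.1
      have h2 : ({k | k ≤ Encodable.encode n ∧ (sec (A k) n).Infinite} : Set ℕ).Nonempty :=
        ⟨0, Nat.zero_le _, hn⟩
      obtain ⟨K, hK, hmax⟩ := h1.exists_maximal h2
      refine ⟨K, hK, fun k hk => ?_⟩
      by_contra hcon
      have := hmax hk (by omega)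
      omega
    refine hK.2.mono fun m hm => ?_
    exact ⟨hanti 0 K (Nat.zero_le _) hm, fun k hk hinf => hanti k K (hmax k ⟨hk, hinf⟩) hm⟩
  · have h1 : {n : SS | k ≤ Encodable.encode n} ∈ W := by
      apply hW
      have h2 : {n : SS | k ≤ Encodable.encode n}ᶜ = Encodable.encode ⁻¹' (Set.Iio k) := by
        ext n
        simp
      rw [h2]
      exact (Set.finite_Iio k).preimage Encodable.encode_injective.injOn
    refine Filter.mem_of_superset (Filter.inter_mem ((notMem_IW W).mp (hpos k)) h1) ?_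
    rintro n ⟨hn1, hn2⟩
    have h3 : sec (B \ A k) n = ∅ := by
      rw [Set.eq_empty_iff_forall_notMem]
      intro m hm
      exact hm.2 (hm.1.2 k hn2 hn1)
    change (sec (B \ A k) n).Finite
    rw [h3]
    exact finite_empty

theorem exists_split {T : Set ℕ} (hT : T.Infinite) : ∃ T' ⊆ T, T'.Infinite ∧ (T \ T').Infinite := by
  let f := hT.natEmbedding
  refine ⟨range fun n => (f (2 * n)).1, ?_, ?_, ?_⟩
  · rintro _ ⟨n, rfl⟩
    exact (f (2 * n)).2
  · refine infinite_range_of_injective fun a b h => ?_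
    have := f.injective (Subtype.ext h)
    omega
  · have h1 : (range fun n => (f (2 * n + 1)).1).Infinite := by
      refine infinite_range_of_injective fun a b h => ?_
      have := f.injective (Subtype.ext h)
      omega
    refine h1.mono ?_
    rintro _ ⟨n, rfl⟩
    refine ⟨(f (2 * n + 1)).2, ?_⟩
    rintro ⟨m, hm⟩
    have := f.injective (Subtype.ext hm)
    omega

theorem isAtomless_IW : IsAtomless (IW W) := by
  classical
  intro A hA
  have h1 : ∀ n : SS, ∃ T ⊆ sec A n, (sec A n).Infinite → T.Infinite ∧ (sec A n \ T).Infinite := by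
    intro n
    by_cases h : (sec A n).Infinite
    · obtain ⟨T, hT, h1, h2⟩ := exists_split h
      exact ⟨T, hT, fun _ => ⟨h1, h2⟩⟩
    · exact ⟨∅, empty_subset _, fun h' => absurd h' h⟩
  choose T hT1 hT2 using h1
  refine ⟨{x | x.2 ∈ T x.1}, fun x hx => hT1 x.1 hx, (notMem_IW W).mpr ?_, (notMem_IW W).mpr ?_⟩
  · refine Filter.mem_of_superset ((notMem_IW W).mp hA) fun n hn => ?_
    exact (hT2 n hn).1
  · refine Filter.mem_of_superset ((notMem_IW W).mp hA) fun n hn => ?_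
    exact (hT2 n hn).2

variable {W}

/-- the projection -/
def prj (Z : Set (SS × ℕ)) : Set SS := {n | (sec Z n).Nonempty}

theorem prj_mem {Z : Set (SS × ℕ)} {p : Quo (IW W) (isIdealOn_IW W)}
    (h : p ∈ meets (gen (IW W) (isIdealOn_IW W) Z)) : prj Z ∈ W := by
  obtain ⟨r, _, s, hs, _⟩ := h p le_rfl
  have hs : s.1 = Z := hs
  have h1 := (notMem_IW W).mp (hs ▸ s.2)
  exact Filter.mem_of_superset h1 fun n hn => Set.Infinite.nonempty hn

/-- the members of the family which contain the projection of `Z` -/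
def FZ (Z : Set (SS × ℕ)) : Set (Set ℕ) := {B | prj Z ⊆ Yf B}

theorem FZ_finite (hW : ∀ R : Set (Set ℕ), R.Infinite → ∀ Z ∈ W, ¬ ∀ r ∈ R, Z ⊆ Yf r)
    {Z : Set (SS × ℕ)} (h : prj Z ∈ W) : (FZ Z).Finite := by
  by_contra hcon
  exact hW (FZ Z) hcon (prj Z) h fun r hr => hr

theorem decide_finite {P : Type} [Preorder P] {F : Set (Set ℕ)} (hF : F.Finite)
    (φ : Set ℕ → Set P) (hφ : ∀ B, Down (φ B)) (p : P) :
    ∃ q ≤ p, ∀ B ∈ F, q ∈ φ B ∨ q ∈ fnot (φ B) := by
  classical
  induction F, hF using Set.Finite.induction_on generalizing p with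
  | empty => exact ⟨p, le_rfl, fun B hB => hB.elim⟩
  | @insert a s _ _ ih =>
    obtain ⟨q, hq, h⟩ := ih p
    by_cases h' : ∃ r ≤ q, r ∈ φ a
    · obtain ⟨r, hr, hra⟩ := h'
      refine ⟨r, hr.trans hq, fun B hB => ?_⟩
      rcases hB with rfl | hB
      · exact Or.inl hra
      · rcases h B hB with h1 | h1
        · exact Or.inl (hφ B _ h1 _ hr)
        · exact Or.inr (down_fnot _ _ h1 _ hr)
    · push Not at h'
      refine ⟨q, hq, fun B hB => ?_⟩
      rcases hB with rfl | hB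
      · exact Or.inr fun r hr => h' r hr
      · exact h B hB

/-- the name of the cofinal map -/
def fname {P : Type} [Preorder P] (𝒲 : Set ℕ → Set P) (Z : Set (SS × ℕ)) (B' : Set ℕ) : Set P :=
  {t | (∀ B ∈ FZ Z, t ∈ meets (𝒲 B) ∨ t ∈ fnot (meets (𝒲 B))) ∧
    B' = {m | ∀ B ∈ FZ Z, t ∈ meets (𝒲 B) → m ∈ B}}

theorem fname_down {P : Type} [Preorder P] (𝒲 : Set ℕ → Set P) (Z : Set (SS × ℕ))
    (B' : Set ℕ) : Down (fname 𝒲 Z B') := by
  rintro t ⟨h1, h2⟩ t' ht'
  have h3 : ∀ B ∈ FZ Z, (t' ∈ meets (𝒲 B) ↔ t ∈ meets (𝒲 B)) := by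
    intro B hB
    rcases h1 B hB with h | h
    · exact ⟨fun _ => h, fun _ => down_meets _ _ h _ ht'⟩
    · exact ⟨fun h' => absurd h' (h t' ht'), fun h' => absurd h' (h t le_rfl)⟩
  refine ⟨fun B hB => ?_, ?_⟩
  · rcases h1 B hB with h | h
    · exact Or.inl (down_meets _ _ h _ ht')
    · exact Or.inr (down_fnot _ _ h _ ht')
  · rw [h2]
    ext m
    constructor
    · intro h B hB hB'
      exact h B hB ((h3 B hB).mp hB')
    · intro h B hB hB'
      exact h B hB ((h3 B hB).mpr hB')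

theorem meets_down {P : Type} [Preorder P] {N : Set P} (hN : Down N) {p : P} (h : p ∈ meets N) :
    ∃ q ≤ p, q ∈ N := by
  obtain ⟨r, hr, s, hs, hrs⟩ := h p le_rfl
  exact ⟨r, hr, hN s hs r hrs⟩

/-- a finite intersection of members of a named ultrafilter -/
theorem finite_inter {P : Type} [Preorder P] {𝒲 : Set ℕ → Set P} {F : Set (Set ℕ)}
    (hF : F.Finite) {t : P} (ht : t ∈ IsUltraHolds 𝒲) (h : ∀ B ∈ F, t ∈ meets (𝒲 B)) :
    ∀ s ≤ t, ∃ s' ≤ s, s' ∈ meets (𝒲 {m | ∀ B ∈ F, m ∈ B}) := by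
  classical
  induction F, hF using Set.Finite.induction_on with
  | empty =>
    intro s hs
    have huniv : {m : ℕ | ∀ B ∈ (∅ : Set (Set ℕ)), m ∈ B} = Set.univ := by
      ext m; simp
    rw [huniv]
    -- `∅` does not belong, so its complement does
    have h1 := ht.2.2.2 ∅
    have h2 : s ∈ fnot (meets (𝒲 ∅)) := down_fnot _ _ ht.1 _ hs
    obtain ⟨s', hs', h3⟩ := mem_fimp.1 h1 s hs h2
    rw [compl_empty] at h3
    exact ⟨s', hs', h3⟩
  | @insert a F' _ _ ih =>
    intro s hs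
    obtain ⟨s', hs', h1⟩ := ih (fun B hB => h B (Or.inr hB)) s hs
    have h2 := down_meets _ _ (h a (Or.inl rfl)) _ (hs'.trans hs)
    obtain ⟨s'', hs'', h3⟩ := mem_fimp.1 (ht.2.2.1 a {m | ∀ B ∈ F', m ∈ B}) s' (hs'.trans hs)
      ⟨h2, h1⟩
    refine ⟨s'', hs''.trans hs', ?_⟩
    have h4 : {m : ℕ | ∀ B ∈ insert a F', m ∈ B} = a ∩ {m | ∀ B ∈ F', m ∈ B} := by
      ext m
      simp
    rw [h4]
    exact h3

theorem meets_of_dense' {P : Type} [Preorder P] {N : Set P} {t : P}
    (h : ∀ s ≤ t, ∃ s' ≤ s, s' ∈ meets N) : t ∈ meets N := by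
  intro s hs
  obtain ⟨s', hs', h1⟩ := h s hs
  obtain ⟨r, hr, u, hu, hru⟩ := h1 s' le_rfl
  exact ⟨r, hr.trans hs', u, hu, hru⟩

theorem tukeyTop (hY : ∀ r, Yf r ∈ W)
    (hW : ∀ R : Set (Set ℕ), R.Infinite → ∀ Z ∈ W, ¬ ∀ r ∈ R, Z ⊆ Yf r)
    (p : Quo (IW W) (isIdealOn_IW W)) :
    p ∈ TukeyTopHolds (gen (IW W) (isIdealOn_IW W)) := by
  classical
  intro 𝒲
  refine mem_fimp.2 fun q _ hq => ⟨q, le_rfl, ?_⟩
  refine mem_fex_of_mem (fname 𝒲) (down_fand (down_fand (down_fall fun _ => down_fimp _ _)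
    (down_fall fun _ => down_fall fun _ => down_fall fun _ => down_fimp _ _))
    (down_fall fun _ => down_fimp _ _)) ⟨⟨fun Z => ?_, fun Z B B' => ?_⟩, fun 𝒞 => ?_⟩
  · refine mem_fimp.2 fun s hs hsZ => ?_
    have hfin := FZ_finite hW (prj_mem hsZ)
    obtain ⟨t, ht, hdec⟩ := decide_finite hfin (fun B => meets (𝒲 B)) (fun B => down_meets _) s
    refine ⟨t, ht, mem_fex_of_mem {m | ∀ B ∈ FZ Z, t ∈ meets (𝒲 B) → m ∈ B}
      (down_fand (down_meets _) (down_meets _)) ⟨meets_of_mem ⟨hdec, rfl⟩, ?_⟩⟩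
    have htq : t ∈ IsUltraHolds 𝒲 := down_IsUltraHolds 𝒲 _ hq _ (ht.trans hs)
    have h1 := finite_inter (F := {B ∈ FZ Z | t ∈ meets (𝒲 B)}) (hfin.subset fun B hB => hB.1)
      htq (fun B hB => hB.2)
    have h2 : {m : ℕ | ∀ B ∈ FZ Z, t ∈ meets (𝒲 B) → m ∈ B} =
        {m | ∀ B ∈ {B ∈ FZ Z | t ∈ meets (𝒲 B)}, m ∈ B} := by
      ext m
      constructor
      · intro h B hB; exact h B hB.1 hB.2
      · intro h B hB hB'; exact h B ⟨hB, hB'⟩
    rw [h2]
    exact meets_of_dense' h1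
  · refine mem_fimp.2 fun s _ h => ?_
    obtain ⟨_, h1, h2⟩ := h
    obtain ⟨t, ht, ht1⟩ := meets_down (fname_down 𝒲 Z B) h1
    obtain ⟨u, hu, hu2⟩ := meets_down (fname_down 𝒲 Z B') (down_meets _ _ h2 _ ht)
    have hu1 := fname_down 𝒲 Z B _ ht1 _ hu
    exact ⟨u, hu.trans ht, hu1.2.trans hu2.2.symm⟩
  · refine mem_fimp.2 fun s hs hsC => ⟨s, le_rfl, fun B => ?_⟩
    refine mem_fimp.2 fun t ht htB => ?_
    -- the preimage of `Yf B` belongs to the generic ultrafilter
    have hZ0 : t ∈ meets (gen (IW W) (isIdealOn_IW W) {x | x.1 ∈ Yf B}) := by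
      rw [mem_gen]
      refine Filter.mem_of_superset (hY B) fun n hn => ?_
      have h1 : sec (t.1 \ {x | x.1 ∈ Yf B}) n = ∅ := by
        rw [Set.eq_empty_iff_forall_notMem]
        intro m hm
        exact hm.2 hn
      change (sec (t.1 \ {x | x.1 ∈ Yf B}) n).Finite
      rw [h1]
      exact finite_empty
    obtain ⟨u, hu, hcof⟩ := mem_fimp.1 (hsC.2 {x | x.1 ∈ Yf B}) t ht hZ0
    obtain ⟨v, hv, Z, hZsub, hZC⟩ := mem_fex.1 hcof u le_rfl
    obtain ⟨v', hv', hZG⟩ := mem_fimp.1 (hsC.1 Z) v (hv.trans (hu.trans ht)) hZC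
    have hBF : B ∈ FZ Z := by
      rintro n ⟨m, hm⟩
      exact hZsub hm
    have hfin := FZ_finite hW (prj_mem hZG)
    obtain ⟨w, hw, hdec⟩ := decide_finite hfin (fun B => meets (𝒲 B)) (fun B => down_meets _) v'
    have hwt : w ≤ t := hw.trans (hv'.trans (hv.trans hu))
    refine ⟨w, hwt, ?_⟩
    refine mem_fex_of_mem Z (down_fex _) (mem_fex_of_mem
      {m | ∀ B ∈ FZ Z, w ∈ meets (𝒲 B) → m ∈ B}
      (down_fand (down_meets _) (down_fand (down_meets _) (down_fground _)))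
      ⟨down_meets _ _ hZC _ (hw.trans hv'), meets_of_mem ⟨hdec, rfl⟩, ?_⟩)
    intro m hm
    exact hm B hBF (down_meets _ _ htB _ hwt)

end special

end Pool.Agent.V11242.TT
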