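import Mathlib

/-!
# An ultrafilter with continuum many members no infinitely many of which have a lower bound
-/

set_option autoImplicit false

namespace Pool.Agent.V11242.TT

open Set

/-- The countable base set. -/
abbrev SS : Type := Finset ℕ × Finset (Finset ℕ)

open Classical in
/-- The trace of `r` on a finite set. -/
noncomputable def tr (r : Set ℕ) (F : Finset ℕ) : Finset ℕ := F.filter (· ∈ r)

/-- The independent family. -/
def Yf (r : Set ℕ) : Set SS := {s | tr r s.1 ∈ s.2}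

lemma tr_ne {r r' : Set ℕ} (h : r ≠ r') : ∃ n, ∀ m ≥ n, tr r (Finset.range m) ≠
    tr r' (Finset.range m) := by
  classical
  obtain ⟨i, hi⟩ : ∃ i, ¬ (i ∈ r ↔ i ∈ r') := by
    by_contra hc
    push Not at hc
    exact h (Set.ext hc)
  refine ⟨i + 1, fun m hm heq => hi ?_⟩
  have h1 : i ∈ tr r (Finset.range m) ↔ i ∈ tr r' (Finset.range m) := by rw [heq]
  simp only [tr, Finset.mem_filter, Finset.mem_range] at h1
  constructor
  · intro hir; exact (h1.mp ⟨by omega, hir⟩).2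
  · intro hir; exact (h1.mpr ⟨by omega, hir⟩).2

/-- The sets that generate the filter. -/
def gens : Set (Set SS) :=
  {b | (∃ r, b = Yf r) ∨ (∃ R : Set (Set ℕ), R.Infinite ∧ b = (⋂ r ∈ R, Yf r)ᶜ) ∨ bᶜ.Finite}

lemma gens_fip (t : Set (Set SS)) (ht : t ⊆ gens) (hfin : t.Finite) : (⋂₀ t).Nonempty := by
  classical
  -- witnesses
  let A : Set (Set ℕ) := {r | Yf r ∈ t}
  have hYinj : Function.Injective Yf := by
    intro r r' h
    by_contra hne
    obtain ⟨n, hn⟩ := tr_ne hne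
    have h1 : ((Finset.range n, {tr r (Finset.range n)}) : SS) ∈ Yf r := by
      simp [Yf]
    rw [h] at h1
    simp only [Yf, mem_ofPred_eq, Finset.mem_singleton] at h1
    exact hn n le_rfl h1.symm
  have hA : A.Finite := hfin.preimage hYinj.injOn
  have hch : ∀ b : Set SS, ∃ r : Set ℕ, b ∈ t →
      (∃ R : Set (Set ℕ), R.Infinite ∧ b = (⋂ r ∈ R, Yf r)ᶜ) →
        r ∉ A ∧ (Yf r)ᶜ ⊆ b := by
    intro b
    by_cases hb : ∃ R : Set (Set ℕ), R.Infinite ∧ b = (⋂ r ∈ R, Yf r)ᶜ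
    · obtain ⟨R, hR, rfl⟩ := hb
      obtain ⟨r, hr, hrA⟩ := hR.exists_notMem_finite hA
      refine ⟨r, fun _ _ => ⟨hrA, ?_⟩⟩
      exact compl_subset_compl.mpr (biInter_subset_of_mem hr)
    · exact ⟨∅, fun _ h => absurd h hb⟩
  choose c hc using hch
  let A' : Set (Set ℕ) := c '' {b ∈ t | ∃ R : Set (Set ℕ), R.Infinite ∧ b = (⋂ r ∈ R, Yf r)ᶜ}
  have hA' : A'.Finite := (hfin.subset fun b hb => hb.1).image c
  -- separate
  have hsep : ∀ q : Set ℕ × Set ℕ, ∃ n, q.1 ≠ q.2 → ∀ m ≥ n, tr q.1 (Finset.range m) ≠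
      tr q.2 (Finset.range m) := by
    intro q
    by_cases h : q.1 = q.2
    · exact ⟨0, fun h' => absurd h h'⟩
    · obtain ⟨n, hn⟩ := tr_ne h
      exact ⟨n, fun _ => hn⟩
  choose sep hsep using hsep
  obtain ⟨n₀, hn₀⟩ : ∃ n₀, ∀ q ∈ A ×ˢ A', sep q ≤ n₀ := by
    obtain ⟨n₀, hn₀⟩ := ((hA.prod hA').image sep).bddAbove
    exact ⟨n₀, fun q hq => hn₀ ⟨q, hq, rfl⟩⟩
  -- the finite exceptional set
  let E : Set SS := ⋃ b ∈ {b ∈ t | bᶜ.Finite}, bᶜ
  have hE : E.Finite := (hfin.subset fun b hb => hb.1).biUnion fun b hb => hb.2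
  let s : ℕ → SS := fun m => (Finset.range m, hA.toFinset.image fun r => tr r (Finset.range m))
  have hs : Function.Injective s := by
    intro m m' h
    have := congrArg (fun x : SS => x.1.card) h
    simpa [s] using this
  obtain ⟨m, hm, hmE⟩ : ∃ m ∈ Ici n₀, s m ∉ E := by
    have h1 : (s '' Ici n₀).Infinite := (Set.Ici_infinite n₀).image hs.injOn
    obtain ⟨_, ⟨m, hm, rfl⟩, hmE⟩ := h1.exists_notMem_finite hE
    exact ⟨m, hm, hmE⟩
  refine ⟨s m, ?_⟩
  intro b hb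
  rcases ht hb with ⟨r, rfl⟩ | hR | hcof
  · change tr r (Finset.range m) ∈ hA.toFinset.image fun r => tr r (Finset.range m)
    exact Finset.mem_image.mpr ⟨r, hA.mem_toFinset.mpr hb, rfl⟩
  · obtain ⟨h1, h2⟩ := hc b hb hR
    apply h2
    intro h3
    have h3 : tr (c b) (Finset.range m) ∈ hA.toFinset.image fun r => tr r (Finset.range m) := h3
    obtain ⟨r, hr, heq⟩ := Finset.mem_image.mp h3
    have hrA : r ∈ A := hA.mem_toFinset.mp hr
    have hne : r ≠ c b := fun h => h1 (h ▸ hrA)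
    have hcb : c b ∈ A' := ⟨b, ⟨hb, hR⟩, rfl⟩
    exact hsep (r, c b) hne m ((hn₀ (r, c b) ⟨hrA, hcb⟩).trans hm) heq
  · by_contra hcon
    apply hmE
    exact mem_biUnion (⟨hb, hcof⟩ : b ∈ {b ∈ t | bᶜ.Finite}) hcon

/-- There is an ultrafilter with continuum many members no infinitely many of which contain a
common member. -/
theorem exists_top : ∃ W : Ultrafilter SS, (∀ b : Set SS, bᶜ.Finite → b ∈ W) ∧
    (∀ r, Yf r ∈ W) ∧ ∀ R : Set (Set ℕ), R.Infinite → ∀ Z ∈ W, ¬ ∀ r ∈ R, Z ⊆ Yf r := by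
  have hne : (Filter.generate gens).NeBot := by
    rw [Filter.generate_neBot_iff]
    exact gens_fip
  have hle := Ultrafilter.of_le (Filter.generate gens)
  have hmem : ∀ b ∈ gens, b ∈ Ultrafilter.of (Filter.generate gens) := fun b hb =>
    hle (Filter.GenerateSets.basic hb)
  refine ⟨Ultrafilter.of (Filter.generate gens), fun b hb => hmem b (Or.inr (Or.inr hb)),
    fun r => hmem _ (Or.inl ⟨r, rfl⟩), ?_⟩
  intro R hR Z hZ hsub
  have h1 := hmem _ (Or.inr (Or.inl ⟨R, hR, rfl⟩))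
  have h2 : (⋂ r ∈ R, Yf r) ∈ Ultrafilter.of (Filter.generate gens) :=
    Filter.mem_of_superset hZ (subset_iInter₂ hsub)
  exact (Ultrafilter.compl_mem_iff_notMem.mp h1) h2

end Pool.Agent.V11242.TT
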